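import Pool.Agent.Q181.Kameko.Nonzero
import Pool.Agent.Q181.Kameko.Relation

/-!
# Kameko's squaring operation on coinvariants is not injective for `d ≥ 5`

For all `d ≥ 5` and all `k ≥ d` the class of `a_j^(2^k-1)` in `F₂ ⊗_{GL_d} PH_{2^k-1}` is nonzero
and is killed by Kameko's squaring operation.

The graded dual of `P_d` is modelled by additive maps `P_d → F₂`; over `F₂` additive subgroups and
subspaces are the same.
-/

open MvPolynomial

namespace Pool.Agent.Results.MP_ca28bb_gt.NotMonoFiveOrMore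

noncomputable section

/-- The polynomial algebra `P_d = F₂[x_1, …, x_d]`. -/
abbrev P (d : ℕ) : Type := MvPolynomial (Fin d) (ZMod 2)

/-- The substitution `f ↦ f(w(x_1), …, w(x_d))`, where `w(x_j) = ∑ i, w_ij x_i`. -/
def act {d : ℕ} (w : Matrix (Fin d) (Fin d) (ZMod 2)) : P d →+* P d :=
  eval₂Hom C (fun j => ∑ i, C (w i j) * X i)

/-- The total Steenrod square `P_d → P_d[T]`, the ring homomorphism which is the identity on the
coefficients and sends `x_i` to `x_i + x_i ^ 2 T`. -/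
def totalSq (d : ℕ) : P d →+* Polynomial (P d) :=
  eval₂Hom (Polynomial.C.comp C) (fun i => Polynomial.C (X i) + Polynomial.C (X i ^ 2) * Polynomial.X)

/-- The Steenrod square `Sq^k f`: the coefficient of `T ^ k` of the total square. -/
def Sq {d : ℕ} (k : ℕ) (f : P d) : P d := (totalSq d f).coeff k

/-- An additive map `p : P_d → F₂` is primitive of degree `n` if it vanishes on the monomials of
degree different from `n` and is annihilated by all dual Steenrod squares `p ↦ p ∘ Sq^k`, `k > 0`. -/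
def IsPrim {d : ℕ} (n : ℕ) (p : P d →+ ZMod 2) : Prop :=
  (∀ s : Fin d →₀ ℕ, s.degree ≠ n → p (monomial s 1) = 0) ∧ ∀ k > 0, ∀ f : P d, p (Sq k f) = 0

lemma IsPrim.zero {d n : ℕ} : IsPrim n (0 : P d →+ ZMod 2) := ⟨fun _ _ => rfl, fun _ _ _ => rfl⟩

lemma IsPrim.add {d n : ℕ} {p q : P d →+ ZMod 2} (hp : IsPrim n p) (hq : IsPrim n q) :
    IsPrim n (p + q) :=
  ⟨fun s hs => by rw [AddMonoidHom.add_apply, hp.1 s hs, hq.1 s hs, add_zero],
    fun k hk f => by rw [AddMonoidHom.add_apply, hp.2 k hk, hq.2 k hk, add_zero]⟩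

lemma IsPrim.neg {d n : ℕ} {p : P d →+ ZMod 2} (hp : IsPrim n p) : IsPrim n (-p) :=
  ⟨fun s hs => by rw [AddMonoidHom.neg_apply, hp.1 s hs, neg_zero],
    fun k hk f => by rw [AddMonoidHom.neg_apply, hp.2 k hk, neg_zero]⟩

/-- The group `PH_n` of all primitive functionals of degree `n`, as a subgroup. -/
def primSubgroup (d n : ℕ) : AddSubgroup (P d →+ ZMod 2) where
  carrier := {p | IsPrim n p}
  zero_mem' := IsPrim.zero
  add_mem' := IsPrim.add
  neg_mem' := IsPrim.neg

/-- The group `PH_n` of all primitive functionals of degree `n`. -/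
def PH (d n : ℕ) : Type := primSubgroup d n

instance (d n : ℕ) : AddCommGroup (PH d n) := (primSubgroup d n).toAddCommGroup

/-- The endomorphism of `P_d` which sends `x^t` to `x^((t-1)/2)` if all `t_i` are odd, and to `0`
otherwise. -/
def kam {d : ℕ} (f : P d) : P d :=
  open Classical in ∑ t ∈ f.support with ∀ i, Odd (t i),
    monomial (t.mapRange (fun a => (a - 1) / 2) rfl) (coeff t f)

/-! Comparison with the linear versions of the helper files. -/

lemma act_eq {d : ℕ} (w : Matrix (Fin d) (Fin d) (ZMod 2)) (f : P d) :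
    act w f = Q181.Kameko.act w f := rfl

lemma totalSq_eq {d : ℕ} (f : P d) : totalSq d f = Q181.Kameko.totalSq d f := rfl

lemma Sq_eq {d : ℕ} (k : ℕ) (f : P d) : Sq k f = Q181.Kameko.Sq k f := rfl

lemma kam_eq {d : ℕ} (f : P d) : kam f = Q181.Kameko.kam f := by
  classical
  rw [kam]
  conv_rhs => rw [f.as_sum, map_sum]
  rw [Finset.sum_filter]
  refine Finset.sum_congr rfl fun t _ => ?_
  rw [Q181.Kameko.monomial_eq_smul t, map_smul, Q181.Kameko.kam_monomial]
  split_ifs with h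
  · rw [← Q181.Kameko.monomial_eq_smul]
  · rw [smul_zero]

lemma kam_zero {d : ℕ} : kam (0 : P d) = 0 := by rw [kam_eq, map_zero]

lemma kam_add {d : ℕ} (f g : P d) : kam (f + g) = kam f + kam g := by
  rw [kam_eq, kam_eq, kam_eq, map_add]

/-- The map `kam` as an additive map. -/
def kamHom (d : ℕ) : P d →+ P d where
  toFun := kam
  map_zero' := kam_zero
  map_add' := kam_add

/-- The linear version of an additive map. -/
def lin {d : ℕ} (p : P d →+ ZMod 2) : P d →ₗ[ZMod 2] ZMod 2 := p.toZModLinearMap 2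

lemma lin_apply {d : ℕ} (p : P d →+ ZMod 2) (f : P d) : lin p f = p f := rfl

lemma lin_mem {d n : ℕ} {p : P d →+ ZMod 2} : lin p ∈ Q181.Kameko.PH d n ↔ IsPrim n p := by
  constructor
  · intro h
    exact ⟨h.1, fun k hk f => LinearMap.congr_fun (h.2 k hk) f⟩
  · intro h
    exact ⟨h.1, fun k hk => LinearMap.ext fun f => h.2 k hk f⟩

lemma isPrim_act {d n : ℕ} (w : Matrix (Fin d) (Fin d) (ZMod 2)) {p : P d →+ ZMod 2}
    (hp : IsPrim n p) : IsPrim n (p.comp (act w).toAddMonoidHom) :=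
  lin_mem.1 (Q181.Kameko.PH_act (lin_mem.2 hp) w)

lemma isPrim_kam {d n : ℕ} {p : P d →+ ZMod 2}
    (hp : IsPrim n p) : IsPrim (d + 2 * n) (p.comp (kamHom d)) := by
  have h := Q181.Kameko.PH_kam (lin_mem.2 hp)
  have h2 : (lin p).comp Q181.Kameko.kam = lin (p.comp (kamHom d)) := by
    refine LinearMap.ext fun f => ?_
    rw [LinearMap.comp_apply, lin_apply, lin_apply, AddMonoidHom.comp_apply]
    congr 1
    exact (kam_eq f).symm
  rw [h2] at h
  exact lin_mem.1 h

/-- The right action of `w ∈ GL_d` on `PH_n`: `p · w = p ∘ act w`. -/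
def translate {d n : ℕ} (p : PH d n) (w : GL (Fin d) (ZMod 2)) : PH d n :=
  ⟨p.1.comp (act w.val).toAddMonoidHom, isPrim_act w.val p.2⟩

/-- The subgroup of `PH_n` generated by all `p · w - p`, `p ∈ PH_n`, `w ∈ GL_d`. -/
def coinvRel (d n : ℕ) : AddSubgroup (PH d n) :=
  AddSubgroup.closure {q | ∃ (p : PH d n) (w : GL (Fin d) (ZMod 2)), q = translate p w - p}

/-- Kameko's map `PH_n → PH_{d+2n}`, `p ↦ p ∘ kam`, which sends `∏ a_i^(s_i)` to
`∏ a_i^(2 s_i + 1)`. -/
def kamPH (d n : ℕ) : PH d n →+ PH d (d + 2 * n) where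
  toFun p := ⟨p.1.comp (kamHom d), isPrim_kam p.2⟩
  map_zero' := rfl
  map_add' _ _ := rfl

lemma det_eq_one {d : ℕ} (w : GL (Fin d) (ZMod 2)) : w.val.det = 1 := by
  have h1 : IsUnit w.val.det := (Matrix.isUnit_iff_isUnit_det _).1 w.isUnit
  have h2 : ∀ x : ZMod 2, x ≠ 0 → x = 1 := by decide
  exact h2 _ h1.ne_zero

lemma coinvRel_le (d n : ℕ) :
    coinvRel d n ≤ (coinvRel d (d + 2 * n)).comap (kamPH d n) := by
  rw [coinvRel, AddSubgroup.closure_le]
  rintro q ⟨p, w, rfl⟩
  refine AddSubgroup.subset_closure ⟨kamPH d n p, w, ?_⟩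
  rw [map_sub]
  congr 1
  apply Subtype.ext
  refine AddMonoidHom.ext fun f => ?_
  change p.1 (act w.val (kam f)) = p.1 (kam (act w.val f))
  rw [kam_eq, kam_eq, act_eq, act_eq, Q181.Kameko.kam_act _ (det_eq_one w)]

/-- The coinvariants `F₂ ⊗_{GL_d} PH_n = PH_n / coinvRel d n`. -/
def Coinv (d n : ℕ) : Type := PH d n ⧸ coinvRel d n

instance (d n : ℕ) : AddCommGroup (Coinv d n) :=
  QuotientAddGroup.Quotient.addCommGroup (coinvRel d n)

/-- Kameko's squaring operation on coinvariants,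
`F₂ ⊗_{GL_d} PH_n → F₂ ⊗_{GL_d} PH_{d+2n}`, the map induced by `kamPH`. -/
def squaring (d n : ℕ) : Coinv d n →+ Coinv d (d + 2 * n) :=
  QuotientAddGroup.map _ _ (kamPH d n) (coinvRel_le d n)

/-- The functional `p ↦ p (inv Φ)` vanishes on the relations. -/
lemma relations_killed {d n k : ℕ} (Φ : {I : Finset (Fin d) // I.Nonempty} → (Fin k → Fin d))
    (hΦ : ∀ I, Finset.univ.image (Φ I) = I.1) (q : PH d n) (hq : q ∈ coinvRel d n) :
    q.1 (Q181.Kameko.inv Φ) = 0 := by
  rw [coinvRel] at hq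
  induction hq using AddSubgroup.closure_induction with
  | mem q hq =>
    obtain ⟨p, w, rfl⟩ := hq
    change p.1 (act w.val (Q181.Kameko.inv Φ)) - p.1 (Q181.Kameko.inv Φ) = 0
    have := Q181.Kameko.inv_invariant (p := lin p.1) (lin_mem.2 p.2).2 Φ hΦ w.val w.isUnit
    rw [lin_apply, lin_apply] at this
    rw [act_eq, this, sub_self]
  | zero => rfl
  | add x y _ _ hx hy =>
    change x.1 _ + y.1 _ = 0
    rw [hx, hy, add_zero]
  | neg x _ hx =>
    change - x.1 _ = 0
    rw [hx, neg_zero]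

/-- Relations of the linear version are relations. -/
lemma rel_of_rel {d n : ℕ} (q : Q181.Kameko.PH d n) (hq : q ∈ Q181.Kameko.coinvRel d n)
    (q' : PH d n) (h : ∀ f, q'.1 f = q.1 f) : q' ∈ coinvRel d n := by
  rw [Q181.Kameko.coinvRel] at hq
  induction hq using Submodule.span_induction generalizing q' with
  | mem q hq =>
    obtain ⟨p, w, hpw⟩ := hq
    refine AddSubgroup.subset_closure ⟨⟨p.1.toAddMonoidHom, lin_mem.1 ?_⟩, w, ?_⟩
    · exact p.2
    · apply Subtype.ext
      refine AddMonoidHom.ext fun f => ?_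
      rw [h f, hpw]
      rfl
  | zero =>
    have : q' = 0 := Subtype.ext (AddMonoidHom.ext fun f => h f)
    rw [this]
    exact AddSubgroup.zero_mem _
  | add x y _ _ hx hy =>
    have hx' := hx ⟨x.1.toAddMonoidHom, lin_mem.1 x.2⟩ fun f => rfl
    have hy' := hy ⟨y.1.toAddMonoidHom, lin_mem.1 y.2⟩ fun f => rfl
    have : q' = ⟨x.1.toAddMonoidHom, lin_mem.1 x.2⟩ + ⟨y.1.toAddMonoidHom, lin_mem.1 y.2⟩ :=
      Subtype.ext (AddMonoidHom.ext fun f => h f)
    rw [this]
    exact AddSubgroup.add_mem _ hx' hy'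
  | smul c x _ hx =>
    have hx' := hx ⟨x.1.toAddMonoidHom, lin_mem.1 x.2⟩ fun f => rfl
    have hc : ∀ c : ZMod 2, c = 0 ∨ c = 1 := by decide
    rcases hc c with rfl | rfl
    · have : q' = 0 := Subtype.ext (AddMonoidHom.ext fun f => by rw [h f, zero_smul]; rfl)
      rw [this]
      exact AddSubgroup.zero_mem _
    · have : q' = ⟨x.1.toAddMonoidHom, lin_mem.1 x.2⟩ :=
        Subtype.ext (AddMonoidHom.ext fun f => by rw [h f, one_smul]; rfl)
      rw [this]
      exact hx'

/-- For every `d ≥ 5` and every `k ≥ d`, Kameko's squaring operation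
`F₂ ⊗_{GL_d} PH_n → F₂ ⊗_{GL_d} PH_{d+2n}` is not injective in degree `n = 2^k - 1`. -/
theorem result (d : ℕ) (hd : 5 ≤ d) (k : ℕ) (hk : d ≤ k) :
    ¬ Function.Injective (squaring d (2 ^ k - 1)) := by
  classical
  intro hinj
  let j : Fin d := ⟨0, by omega⟩
  -- the class
  let e : Fin d →₀ ℕ := Finsupp.single j (2 ^ k - 1)
  have hdeg : e.degree = 2 ^ k - 1 := Finsupp.degree_single _ _
  have he : (Q181.Kameko.a e : P d →ₗ[ZMod 2] ZMod 2) ∈ Q181.Kameko.PH d (2 ^ k - 1) := by
    have := Q181.Kameko.a_mem_PH e fun l => by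
      by_cases hl : l = j
      · exact ⟨k, by rw [hl]; exact Finsupp.single_eq_same⟩
      · exact ⟨0, by rw [Finsupp.single_eq_of_ne hl]; rfl⟩
    rwa [hdeg] at this
  let c : PH d (2 ^ k - 1) := ⟨(Q181.Kameko.a e).toAddMonoidHom, lin_mem.1 he⟩
  -- it is nonzero in the coinvariants
  have hne : c ∉ coinvRel d (2 ^ k - 1) := by
    intro hc
    have h1 : ∀ I : {I : Finset (Fin d) // I.Nonempty}, ∃ φ : Fin k → Fin d,
        Finset.univ.image φ = I.1 := fun I => Q181.Kameko.exists_image hk I.1 I.2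
    choose Φ hΦ using h1
    have h2 := relations_killed Φ hΦ c hc
    have h3 : c.1 (Q181.Kameko.inv Φ) = 1 := Q181.Kameko.a_inv Φ hΦ j
    rw [h2] at h3
    exact absurd h3 (by decide)
  -- its image is zero
  have himg : kamPH d (2 ^ k - 1) c ∈ coinvRel d (d + 2 * (2 ^ k - 1)) := by
    have hrel : (Q181.Kameko.a (Finsupp.equivFunOnFinite.symm fun l =>
        if l = j then 2 ^ (k + 1) - 1 else 1) : P d →ₗ[ZMod 2] ZMod 2) ∈
        Q181.Kameko.rel d (d + 2 * (2 ^ k - 1)) := by
      refine Q181.Kameko.image_mem_rel hd _ (k + 1) rfl j _ ?_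
      have h5 : 0 < 2 ^ k := by positivity
      have h6 : 2 ^ (k + 1) = 2 * 2 ^ k := by ring
      omega
    have hPH := Q181.Kameko.rel_le_PH _ _ hrel
    refine rel_of_rel ⟨_, hPH⟩ (Q181.Kameko.mem_coinvRel_of_mem_rel hrel) _ fun f => ?_
    change (Q181.Kameko.a e : P d →ₗ[ZMod 2] ZMod 2) (kam f) = _
    rw [kam_eq]
    have h1 : (Q181.Kameko.a e : P d →ₗ[ZMod 2] ZMod 2).comp Q181.Kameko.kam =
        Q181.Kameko.a (Finsupp.equivFunOnFinite.symm fun l =>
          if l = j then 2 ^ (k + 1) - 1 else 1) := by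
      rw [Q181.Kameko.a_comp_kam]
      congr 2
      funext l
      have h5 : 0 < 2 ^ k := by positivity
      have h6 : 2 ^ (k + 1) = 2 * 2 ^ k := by ring
      split_ifs with hl
      · rw [hl]
        change 2 * (Finsupp.single j (2 ^ k - 1)) j + 1 = _
        rw [Finsupp.single_eq_same]
        omega
      · change 2 * (Finsupp.single j (2 ^ k - 1)) l + 1 = _
        rw [Finsupp.single_eq_of_ne hl, mul_zero, zero_add]
    exact LinearMap.congr_fun h1 f
  have key : squaring d (2 ^ k - 1)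
      (show Coinv d (2 ^ k - 1) from (QuotientAddGroup.mk c : PH d (2 ^ k - 1) ⧸ coinvRel d _)) = 0 :=
    (QuotientAddGroup.eq_zero_iff _).2 himg
  have key2 := hinj (key.trans (map_zero (squaring d (2 ^ k - 1))).symm)
  exact hne ((QuotientAddGroup.eq_zero_iff c).1 key2)

end

end Pool.Agent.Results.MP_ca28bb_gt.NotMonoFiveOrMore
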